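import Pool.Agent.Y711.GN5

/-!
# Genus two: the order of vanishing for at least half of the quadratic twists in every class

Let `k` be a finite field of characteristic at least five. The polynomial `h = linePencil α β a b`
over `k(t)` is the discriminant of the intersection of the elliptic curve
`y ^ 2 = z ^ 3 + (α z + β) ^ 2` with the lines of slope `x` through the point `(a, b)`; geometrically
every curve of genus two has an equation `y ^ 2 = h(x)`. For at least half of the monic squarefree `D`
of degree `2 g + 1` in every quadratic class modulo `n`, `g` large, the following holds for ALL
`α, β, a, b` such that `y ^ 2 = h(x)` has good reduction outside `m n` and one node modulo the primes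
dividing `n`, and for ALL Galois extensions `L` of `k(t)` of degree a power of three in which no
ramified place splits in `L(√D)`: the order of vanishing at `s = 1` of the `L`-function of the
Jacobian of `y ^ 2 = D h(x)` over `L` is at most `[L : k(t)]` times the number of the places dividing
`n` where the tangent directions at the node of the twisted curve are rational (each of them counted
with the `3`-part of its degree). If there are no such places, these `L`-functions do not vanish at
`s = 1`.
-/

set_option autoImplicit false

open Polynomial Pool.Agent.Y711

namespace Pool.Agent.Results.MP_60d5ce_nt.GenusTwoTwists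

theorem result (k : Type) [Field k] [Finite k] (h2 : (2 : k) ≠ 0) (h3 : (3 : k) ≠ 0)
    (m n e : k[X]) (hm : m.Monic) (hn : n.Monic) (hs : Squarefree (m * n)) (he : IsCoprime n e)
    (δ : ℝ) (hδ : δ < 1 / 2) :
    ∃ N : ℕ, ∀ g ≥ N, δ * (twistClass g m n e).ncard ≤
      {D : k[X] | D ∈ twistClass g m n e ∧ ∀ α β a b : k[X],
        HasNodalReduction 2 (linePencil α β a b) m n →
        ∀ (L : Type) [Field L] [Algebra k[X] L] [Algebra (RatFunc k) L]
          [IsScalarTower k[X] (RatFunc k) L], IsThreeExtension D L →
            ¬ VanishesToOrder (Module.finrank (RatFunc k) L *
              splitWeight (linePencil α β a b) n e + 1) (linePencil α β a b) D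
              (integralClosure k[X] L)}.ncard :=
  pencil_all h2 h3 hm hn hs he hδ

end Pool.Agent.Results.MP_60d5ce_nt.GenusTwoTwists
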