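import Pool.Agent.Y164.HG.Cla

/-!
# A positive proportion of the quadratic twists of a hyperelliptic curve over `k(t)`

Let `k` be a finite field of characteristic different from 2 in which `-1` is a square, `K = k(t)`,
`n = 2 g + 1 ≥ 3`, and let `a 1, …, a n` be polynomials over `k` such that all the differences
`a i - a j` (`i ≠ j`) have the same degree `N ≥ 1` and the product of the differences `a i - a j`,
`i < j`, is squarefree. (For example `N = 1`, `a i = c i t + (c i) ^ 2`, where the `c i` are distinct
elements of `k` such that the sums `c i + c j`, `i < j`, are distinct.) Let `J_D` be the Jacobian of the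
curve of genus `g`

`y ^ 2 = D(t) (x - a 1) ⋯ (x - a n)`

over `K`, for the monic squarefree `D` prime to the differences.

Theorem. As the degree `m` of `D` tends to infinity, `m + N` odd, for at least a sixth of these `D`
(precisely: for at least `1 / 6 - ε` of them, for all `ε > 0` and `m ≥ m(ε)`) the following holds:

* every point of `J_D(K)` is the sum of a `K`-point of order at most 2 and of twice a `K`-point;
* all classes in `H ^ 1 (K, J_D)` killed by a power of 2 which are trivial over the completions of `K` at
  all the places of `K` different from infinity are zero. In particular the 2-primary part of the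
  Tate-Shafarevich group of `J_D` over `K` is zero.

The Brauer group of a smooth projective model `X_D` of the surface `y ^ 2 = D(t) ∏ (x - a i)` over `k` is
isomorphic to the Tate-Shafarevich group of `J_D` over `K` (Artin, Grothendieck), so for these `D` its
2-primary part is zero, and it is finite, of odd order (Tate, Milne). By Kato and Trihan the whole
conjecture of Birch and Swinnerton-Dyer (the order of vanishing, here 0, and the formula) holds for
`J_D`.
-/

set_option autoImplicit false
set_option linter.all false

namespace Pool.Agent.Results.MP_60d5ce_nt.HyperellipticTwists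

open Polynomial Filter Pool.Agent.Y713.Jac
open scoped Classical

/-- The product of the differences `a i - a j`, `i < j`. -/
noncomputable def differences {k : Type} [Field k] {n : ℕ} (a : Fin n → k[X]) : k[X] :=
  ∏ x ∈ (Finset.univ : Finset (Fin n × Fin n)).filter (fun x => x.1 < x.2), (a x.1 - a x.2)

/-- The monic squarefree polynomials `D` of degree `m` prime to the differences `a i - a j`. -/
def Twists {k : Type} [Field k] {n : ℕ} (a : Fin n → k[X]) (m : ℕ) : Set k[X] :=
  {D | D.Monic ∧ D.natDegree = m ∧ Squarefree D ∧ ∀ i j, i ≠ j → IsCoprime D (a i - a j)}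

/-- The polynomial `D(t) ∏ (x - a i)` in `x` over `K = k(t)`. -/
noncomputable def twist {k : Type} [Field k] (K : Type) [Field K] [Algebra k[X] K] {n : ℕ}
    (a : Fin n → k[X]) (D : k[X]) : K[X] :=
  C (algebraMap k[X] K D) * ∏ i, (X - C (algebraMap k[X] K (a i)))

/-- Every element of the group is the product of an element of order at most 2 and a square. -/
def TorsionTimesSquares (G : Type) [CommGroup G] : Prop := ∀ P : G, ∃ T Q : G, T ^ 2 = 1 ∧ P = T * Q ^ 2

/-- For the Jacobian `J_D` of the twist by `D`, the group `J_D(K)` is `J_D(K)[2] + 2 J_D(K)`, and the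
2-primary part of the group of the classes in `H ^ 1 (K, J_D)` which are trivial over the completions of
`K = k(t)` at the places different from infinity is zero. -/
def IsGood {k : Type} [Field k] (K : Type) [Field K] [Algebra k[X] K] [IsFractionRing k[X] K]
    {n : ℕ} (a : Fin n → k[X]) (D : k[X]) : Prop :=
  ShaPrimaryTrivial 2 (twist K a D) k[X] ∧ TorsionTimesSquares (J 2 (twist K a D) K)

theorem result (k : Type) [Field k] [Finite k] (h2 : (2 : k) ≠ 0) (hi : IsSquare (-1 : k))
    (K : Type) [Field K] [Algebra k[X] K] [IsFractionRing k[X] K] (n : ℕ) (hn : Odd n)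
    (hn3 : 3 ≤ n) (N : ℕ) (hN : 1 ≤ N) (a : Fin n → k[X])
    (ha : ∀ i j, i ≠ j → (a i - a j).natDegree = N) (hs : Squarefree (differences a)) :
    (∃ c : ℝ, 0 < c ∧ ∀ᶠ m : ℕ in atTop,
      c * (Nat.card k : ℝ) ^ m ≤ ((Twists a m).ncard : ℝ)) ∧
    ∀ ε : ℝ, 0 < ε → ∀ᶠ m : ℕ in atTop, Odd (m + N) →
      (1 / 6 - ε) * ((Twists a m).ncard : ℝ) ≤
        (({D ∈ Twists a m | IsGood K a D}).ncard : ℝ) :=
  Pool.Agent.Y164.HG.final h2 hi K hn hn3 N hN a ha hs

end Pool.Agent.Results.MP_60d5ce_nt.HyperellipticTwists
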