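import Pool.Agent.Y711.CL7

/-!
# The order of vanishing for at least half of the quadratic twists in every quadratic class

Let `k` be a finite field of characteristic at least five, let `m n` be a monic squarefree polynomial
in `k[t]`, and fix a class of polynomials with prescribed quadratic symbols at the primes dividing
`n`. For at least half of the monic squarefree `D` of degree `2 g + 1` in the class which are divisible
by `m`, `g` large, the following holds for ALL hyperelliptic curves `y ^ 2 = f(x)` over `k(t)` of ALL
genera with unipotent Frobenius elements modulo three, good reduction outside `m n` and nodal reduction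
at the places dividing `n`, and for ALL Galois extensions `L` of `k(t)` of degree a power of three in
which no ramified place splits in `L(√D)`: the order of vanishing at `s = 1` of the `L`-function of
the Jacobian of `y ^ 2 = D f(x)` over `L` is at most `[L : k(t)]` times the number of the places
dividing `n` where the twisted curve has rational tangent directions at the node (each of them
counted with the `3`-part of its degree). If there are no such places, these `L`-functions do not
vanish at `s = 1`.
-/

set_option autoImplicit false

open Polynomial Pool.Agent.Y711

namespace Pool.Agent.Results.MP_60d5ce_nt.UnipotentTwists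

theorem result (k : Type) [Field k] [Finite k] (h2 : (2 : k) ≠ 0) (h3 : (3 : k) ≠ 0)
    (m n a : k[X]) (hm : m.Monic) (hn : n.Monic) (hs : Squarefree (m * n)) (ha : IsCoprime n a)
    (δ : ℝ) (hδ : δ < 1 / 2) :
    ∃ N : ℕ, ∀ g ≥ N, δ * (twistClass g m n a).ncard ≤
      {D : k[X] | D ∈ twistClass g m n a ∧ ∀ (γ : ℕ) (f : k[X][X]), IsUnipotentNodal γ f m n →
        ∀ (L : Type) [Field L] [Algebra k[X] L] [Algebra (RatFunc k) L]
          [IsScalarTower k[X] (RatFunc k) L], IsThreeExtension D L →
            ¬ VanishesToOrder (Module.finrank (RatFunc k) L * splitWeight f n a + 1) f D
              (integralClosure k[X] L)}.ncard :=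
  all_bound h2 h3 hm hn hs ha hδ

end Pool.Agent.Results.MP_60d5ce_nt.UnipotentTwists
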